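import Mathlib

set_option autoImplicit false

/-!
# The logarithmic potential with a square root correction (helper12)

`V` is a real inner product space, `J : V →L V` (at the pole), `qB J` the positive definite form
`q v w = (⟪v, w⟫ + ⟪J v, J w⟫) / 2`, `u y = log (q (y - x) (y - x) + d²) + A √(q (y - x) (y - x) + d²)`.
-/

namespace Pool.Agent.W_MP_d8b8b7_gt_h12

variable {V : Type*} [NormedAddCommGroup V] [InnerProductSpace ℝ V]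

/-- the form `q v w = (⟪v, w⟫ + ⟪J v, J w⟫) / 2` -/
noncomputable def qB (J : V →L[ℝ] V) : V →L[ℝ] V →L[ℝ] ℝ :=
  (1 / 2 : ℝ) • (innerSL ℝ + (innerSL ℝ).bilinearComp J J)

theorem qB_apply (J : V →L[ℝ] V) (v w : V) :
    qB J v w = (inner ℝ v w + inner ℝ (J v) (J w)) / 2 := by
  change (1 / 2 : ℝ) * (inner ℝ v w + inner ℝ (J v) (J w)) = _
  ring

theorem qB_symm (J : V →L[ℝ] V) (v w : V) : qB J v w = qB J w v := by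
  rw [qB_apply, qB_apply, real_inner_comm, real_inner_comm (J w) (J v)]

theorem qB_self (J : V →L[ℝ] V) (v : V) : qB J v v = (‖v‖ ^ 2 + ‖J v‖ ^ 2) / 2 := by
  rw [qB_apply, real_inner_self_eq_norm_sq, real_inner_self_eq_norm_sq]

theorem qB_self_ge (J : V →L[ℝ] V) (v : V) : ‖v‖ ^ 2 / 2 ≤ qB J v v := by
  rw [qB_self]
  have := sq_nonneg ‖J v‖
  linarith

theorem qB_self_nonneg (J : V →L[ℝ] V) (v : V) : 0 ≤ qB J v v := by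
  have := qB_self_ge J v
  have := sq_nonneg ‖v‖
  linarith

theorem abs_qB_le {L : ℝ} (hL : 1 ≤ L) {J : V →L[ℝ] V} (hJ : ‖J‖ ≤ L) (v w : V) :
    |qB J v w| ≤ L ^ 2 * ‖v‖ * ‖w‖ := by
  rw [qB_apply, abs_div, abs_of_pos (by norm_num : (0 : ℝ) < 2)]
  have h1 := abs_real_inner_le_norm v w
  have h2 := abs_real_inner_le_norm (J v) (J w)
  have h3 : ‖J v‖ ≤ L * ‖v‖ := (J.le_opNorm v).trans (by gcongr)
  have h4 : ‖J w‖ ≤ L * ‖w‖ := (J.le_opNorm w).trans (by gcongr)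
  have h5 : ‖J v‖ * ‖J w‖ ≤ (L * ‖v‖) * (L * ‖w‖) :=
    mul_le_mul h3 h4 (norm_nonneg _) (by positivity)
  have h6 := abs_add_le (inner ℝ v w) (inner ℝ (J v) (J w))
  have h7 : 0 ≤ ‖v‖ * ‖w‖ := by positivity
  have h8 : ‖v‖ * ‖w‖ ≤ L ^ 2 * (‖v‖ * ‖w‖) :=
    le_mul_of_one_le_left h7 (one_le_pow₀ hL)
  linarith only [h1, h2, h5, h6, h8]

/-- the regularized square distance -/
noncomputable def SQ (J : V →L[ℝ] V) (d : ℝ) (x y : V) : ℝ := qB J (y - x) (y - x) + d ^ 2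

theorem SQ_pos (J : V →L[ℝ] V) {d : ℝ} (hd : 0 < d) (x y : V) : 0 < SQ J d x y := by
  have := qB_self_nonneg J (y - x)
  have : 0 < d ^ 2 := by positivity
  unfold SQ
  linarith

theorem SQ_ge (J : V →L[ℝ] V) (d : ℝ) (x y : V) : ‖y - x‖ ^ 2 / 2 + d ^ 2 ≤ SQ J d x y := by
  have := qB_self_ge J (y - x)
  unfold SQ
  linarith

theorem SQ_le {L : ℝ} (hL : 1 ≤ L) {J : V →L[ℝ] V} (hJ : ‖J‖ ≤ L) (d : ℝ) (x y : V) :
    SQ J d x y ≤ L ^ 2 * (‖y - x‖ ^ 2 + d ^ 2) := by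
  have h1 := abs_qB_le hL hJ (y - x) (y - x)
  have h2 := le_abs_self (qB J (y - x) (y - x))
  have h3 : d ^ 2 ≤ L ^ 2 * d ^ 2 := le_mul_of_one_le_left (sq_nonneg d) (one_le_pow₀ hL)
  unfold SQ
  linarith only [h1, h2, h3]

theorem hasFDerivAt_SQ (J : V →L[ℝ] V) (d : ℝ) (x y : V) :
    HasFDerivAt (SQ J d x) ((2 : ℝ) • qB J (y - x)) y := by
  have h1 : HasFDerivAt (fun y : V => y - x) (ContinuousLinearMap.id ℝ V) y :=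
    (hasFDerivAt_id y).sub_const x
  have h2 := ((qB J).hasFDerivAt_of_bilinear h1 h1).add_const (d ^ 2)
  refine h2.congr_fderiv ?_
  ext w
  simp
  rw [qB_symm J w y, qB_symm J w x]
  ring

/-- `1 / s + A / (2 √s)` -/
noncomputable def g1 (A s : ℝ) : ℝ := 1 / s + A / (2 * Real.sqrt s)

/-- `1 / s² + A / (4 s √s)` -/
noncomputable def g2 (A s : ℝ) : ℝ := 1 / s ^ 2 + A / (4 * s * Real.sqrt s)

theorem hasDerivAt_g1 (A : ℝ) {s : ℝ} (hs : 0 < s) : HasDerivAt (g1 A) (-g2 A s) s := by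
  have hr : 0 < Real.sqrt s := Real.sqrt_pos.2 hs
  have h1 : HasDerivAt (fun s : ℝ => 1 / s) (-(1 / s ^ 2)) s := by
    have := hasDerivAt_inv hs.ne'
    simpa [one_div] using this
  have h2 : HasDerivAt (fun s : ℝ => A / (2 * Real.sqrt s)) (-(A / (4 * s * Real.sqrt s))) s := by
    have h3 := (Real.hasDerivAt_sqrt hs.ne').const_mul 2
    have h4 := (hasDerivAt_const s A).div h3 (by positivity)
    refine h4.congr_deriv ?_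
    have h5 : Real.sqrt s ^ 2 = s := Real.sq_sqrt hs.le
    field_simp
    rw [h5]
    ring
  have h6 := h1.add h2
  refine h6.congr_deriv ?_
  unfold g2
  ring

/-- the potential -/
noncomputable def pot (J : V →L[ℝ] V) (A d : ℝ) (x y : V) : ℝ :=
  Real.log (SQ J d x y) + A * Real.sqrt (SQ J d x y)

/-- its derivative -/
noncomputable def dpot (J : V →L[ℝ] V) (A d : ℝ) (x y : V) : V →L[ℝ] ℝ :=
  (2 * g1 A (SQ J d x y)) • qB J (y - x)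

/-- its second derivative -/
noncomputable def ddpot (J : V →L[ℝ] V) (A d : ℝ) (x y : V) : V →L[ℝ] V →L[ℝ] ℝ :=
  (2 * g1 A (SQ J d x y)) • qB J -
    (4 * g2 A (SQ J d x y)) • (qB J (y - x)).smulRight (qB J (y - x))

theorem ddpot_apply (J : V →L[ℝ] V) (A d : ℝ) (x y v w : V) :
    ddpot J A d x y v w = 2 * g1 A (SQ J d x y) * qB J v w -
      4 * g2 A (SQ J d x y) * (qB J (y - x) v * qB J (y - x) w) := by
  simp [ddpot]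

theorem hasFDerivAt_pot (J : V →L[ℝ] V) (A : ℝ) {d : ℝ} (hd : 0 < d) (x y : V) :
    HasFDerivAt (pot J A d x) (dpot J A d x y) y := by
  have hs := SQ_pos J hd x y
  have h1 := (hasFDerivAt_SQ J d x y).log hs.ne'
  have h2 := ((hasFDerivAt_SQ J d x y).sqrt hs.ne').const_mul A
  refine (h1.add h2).congr_fderiv ?_
  ext w
  simp [dpot, g1]
  ring

theorem hasFDerivAt_dpot (J : V →L[ℝ] V) (A : ℝ) {d : ℝ} (hd : 0 < d) (x y : V) :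
    HasFDerivAt (dpot J A d x) (ddpot J A d x y) y := by
  have hs := SQ_pos J hd x y
  have h1 := ((hasDerivAt_g1 A hs).comp_hasFDerivAt y (hasFDerivAt_SQ J d x y)).const_mul 2
  have h2 : HasFDerivAt (fun y : V => qB J (y - x)) (qB J) y := by
    have h3 : HasFDerivAt (fun y : V => y - x) (ContinuousLinearMap.id ℝ V) y :=
      (hasFDerivAt_id y).sub_const x
    exact ((qB J).hasFDerivAt.comp y h3).congr_fderiv (by ext; simp)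
  have h4 := h1.smul h2
  refine h4.congr_fderiv ?_
  ext v w
  simp [ddpot]
  ring


/-- the computation behind `main_pot` -/
theorem main_real {L ζ r d n Qv Qw Q0 a b a0 b0 F A : ℝ} (hL : 1 ≤ L) (hr : 0 < r)
    (hζ : 0 ≤ ζ) (hA : A = 280 * L ^ 7) (hζr : ζ ^ 2 ≤ 2 * r ^ 2)
    (hr2 : r ≤ 2 * L ^ 2) (hdr : d ^ 2 ≤ r ^ 2) (hQ0 : 0 ≤ Q0)
    (hB : a0 ^ 2 + b0 ^ 2 ≤ (r ^ 2 - d ^ 2) * Q0)
    (h1 : |Qv - Q0| ≤ 2 * L ^ 4 * ζ * n ^ 2) (h2 : |Qw - Q0| ≤ 2 * L ^ 5 * ζ * n ^ 2)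
    (h3 : |a ^ 2 - a0 ^ 2| ≤ 2 * L ^ 6 * ζ ^ 3 * n ^ 2)
    (h4 : |b ^ 2 - b0 ^ 2| ≤ 2 * L ^ 7 * ζ ^ 3 * n ^ 2)
    (h5 : n ^ 2 / 4 - L ^ 2 * ζ ^ 2 * n ^ 2 / 2 ≤ Q0)
    (h6 : |F| ≤ 4 * L ^ 4 * (1 / r ^ 2 + A / (2 * r)) * ζ * n ^ 2) :
    n ^ 2 * (d ^ 2 / r ^ 4 - 10000 * L ^ 14) ≤
      2 * (1 / r ^ 2 + A / (2 * r)) * (Qv + Qw)
        - 4 * (1 / r ^ 4 + A / (4 * r ^ 3)) * (a ^ 2 + b ^ 2) + F := by
  obtain ⟨p, hp, hpr⟩ : ∃ p : ℝ, 0 < p ∧ p * r = 1 := ⟨1 / r, by positivity, by field_simp⟩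
  have e1 : 1 / r ^ 2 + A / (2 * r) = p ^ 2 + A * p / 2 := by
    have : p = 1 / r := by field_simp; linarith
    rw [this]; field_simp
  have e2 : 1 / r ^ 4 + A / (4 * r ^ 3) = p ^ 4 + A * p ^ 3 / 4 := by
    have : p = 1 / r := by field_simp; linarith
    rw [this]; field_simp
  have e3 : d ^ 2 / r ^ 4 = d ^ 2 * p ^ 4 := by
    have : p = 1 / r := by field_simp; linarith
    rw [this]; field_simp
  rw [e1] at h6 ⊢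
  rw [e2, e3]
  have hA0 : 0 ≤ A := by rw [hA]; positivity
  have z1 : ζ ≤ 3 / 2 * r := by
    apply le_of_sq_le_sq _ (by positivity)
    have w1 := sq_nonneg r
    linarith only [w1, hζr]
  have z3 : ζ ^ 3 ≤ 3 * r ^ 3 := by
    have : ζ ^ 3 = ζ * ζ ^ 2 := by ring
    rw [this]
    calc ζ * ζ ^ 2 ≤ (3 / 2 * r) * (2 * r ^ 2) := by gcongr
      _ = 3 * r ^ 3 := by ring
  set G1 := p ^ 2 + A * p / 2 with hG1
  set G2 := p ^ 4 + A * p ^ 3 / 4 with hG2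
  have G1p : 0 ≤ G1 := by positivity
  have G2p : 0 ≤ G2 := by positivity
  -- (2)
  have b1 : G1 * ζ ≤ 3 / 2 * p + 3 / 4 * A := by
    calc G1 * ζ ≤ G1 * (3 / 2 * r) := by gcongr
      _ = 3 / 2 * p * (p * r) + 3 / 4 * A * (p * r) := by rw [hG1]; ring
      _ = 3 / 2 * p + 3 / 4 * A := by rw [hpr]; ring
  have b2 : G2 * ζ ^ 3 ≤ 3 * p + 3 / 4 * A := by
    calc G2 * ζ ^ 3 ≤ G2 * (3 * r ^ 3) := by gcongr
      _ = 3 * p * (p * r) ^ 3 + 3 / 4 * A * (p * r) ^ 3 := by rw [hG2]; ring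
      _ = 3 * p + 3 / 4 * A := by rw [hpr]; ring
  -- powers of L
  have L1 : (1 : ℝ) ≤ L ^ 2 := one_le_pow₀ hL
  have L2 : (1 : ℝ) ≤ L ^ 3 := one_le_pow₀ hL
  have L5 : L ^ 5 ≤ L ^ 7 := pow_le_pow_right₀ hL (by norm_num)
  have L4 : L ^ 4 ≤ L ^ 7 := pow_le_pow_right₀ hL (by norm_num)
  have L45 : L ^ 4 ≤ L ^ 5 := pow_le_pow_right₀ hL (by norm_num)
  have L67 : L ^ 6 ≤ L ^ 7 := pow_le_pow_right₀ hL (by norm_num)
  have L214 : L ^ 2 ≤ L ^ 14 := pow_le_pow_right₀ hL (by norm_num)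
  have L1114 : L ^ 11 ≤ L ^ 14 := pow_le_pow_right₀ hL (by norm_num)
  have n2 : 0 ≤ n ^ 2 := sq_nonneg n
  -- (3)
  have c3 : 4 * G1 * Q0 - 8 * L ^ 7 * (3 / 2 * p + 3 / 4 * A) * n ^ 2 ≤ 2 * G1 * (Qv + Qw) := by
    have i1 : 2 * Q0 - 4 * L ^ 7 * ζ * n ^ 2 ≤ Qv + Qw := by
      have i2 := neg_abs_le (Qv - Q0)
      have i3 := neg_abs_le (Qw - Q0)
      have i4 : 2 * L ^ 4 * ζ * n ^ 2 ≤ 2 * L ^ 7 * ζ * n ^ 2 := by gcongr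
      have i5 : 2 * L ^ 5 * ζ * n ^ 2 ≤ 2 * L ^ 7 * ζ * n ^ 2 := by gcongr
      linarith
    have i6 := mul_le_mul_of_nonneg_left i1 (by positivity : 0 ≤ 2 * G1)
    have i7 : 8 * L ^ 7 * (G1 * ζ) * n ^ 2 ≤ 8 * L ^ 7 * (3 / 2 * p + 3 / 4 * A) * n ^ 2 := by
      gcongr
    linarith
  -- (4)
  have c4 : 4 * G2 * (a ^ 2 + b ^ 2) ≤
      4 * G2 * ((r ^ 2 - d ^ 2) * Q0) + 16 * L ^ 7 * (3 * p + 3 / 4 * A) * n ^ 2 := by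
    have i1 : a ^ 2 + b ^ 2 ≤ (r ^ 2 - d ^ 2) * Q0 + 4 * L ^ 7 * ζ ^ 3 * n ^ 2 := by
      have i2 := le_abs_self (a ^ 2 - a0 ^ 2)
      have i3 := le_abs_self (b ^ 2 - b0 ^ 2)
      have i4 : 2 * L ^ 6 * ζ ^ 3 * n ^ 2 ≤ 2 * L ^ 7 * ζ ^ 3 * n ^ 2 := by gcongr
      linarith
    have i6 := mul_le_mul_of_nonneg_left i1 (by positivity : 0 ≤ 4 * G2)
    have i7 : 16 * L ^ 7 * (G2 * ζ ^ 3) * n ^ 2 ≤ 16 * L ^ 7 * (3 * p + 3 / 4 * A) * n ^ 2 := by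
      gcongr
    linarith
  -- (5)
  have c5 : 4 * G1 * Q0 - 4 * G2 * ((r ^ 2 - d ^ 2) * Q0) =
      4 * Q0 * (d ^ 2 * p ^ 4 + A * p / 4) + Q0 * (A * p ^ 3 * d ^ 2) := by
    have j1 : G2 * r ^ 2 = p ^ 2 + A * p / 4 := by
      calc G2 * r ^ 2 = p ^ 2 * (p * r) ^ 2 + A * p / 4 * (p * r) ^ 2 := by rw [hG2]; ring
        _ = p ^ 2 + A * p / 4 := by rw [hpr]; ring
    have j2 : 4 * G1 * Q0 - 4 * G2 * ((r ^ 2 - d ^ 2) * Q0) =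
        4 * Q0 * (G1 - G2 * r ^ 2) + 4 * Q0 * (G2 * d ^ 2) := by ring
    rw [j2, j1, hG1, hG2]
    ring
  have c5' : 0 ≤ Q0 * (A * p ^ 3 * d ^ 2) := by positivity
  -- (6)
  have c6 : n ^ 2 * (d ^ 2 * p ^ 4 + A * p / 4) - 4 * L ^ 2 * n ^ 2 - L ^ 2 * A * r * n ^ 2 ≤
      4 * Q0 * (d ^ 2 * p ^ 4 + A * p / 4) := by
    have j1 : n ^ 2 - 4 * L ^ 2 * r ^ 2 * n ^ 2 ≤ 4 * Q0 := by
      have : L ^ 2 * ζ ^ 2 * n ^ 2 ≤ L ^ 2 * (2 * r ^ 2) * n ^ 2 := by gcongr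
      linarith
    have j2 := mul_le_mul_of_nonneg_right j1 (by positivity : 0 ≤ d ^ 2 * p ^ 4 + A * p / 4)
    have j3 : r ^ 2 * (d ^ 2 * p ^ 4 + A * p / 4) = d ^ 2 * p ^ 2 + A * r / 4 := by
      calc r ^ 2 * (d ^ 2 * p ^ 4 + A * p / 4)
          = d ^ 2 * p ^ 2 * (p * r) ^ 2 + A * r / 4 * (p * r) := by ring
        _ = d ^ 2 * p ^ 2 + A * r / 4 := by rw [hpr]; ring
    have j4 : d ^ 2 * p ^ 2 ≤ 1 := by
      calc d ^ 2 * p ^ 2 ≤ r ^ 2 * p ^ 2 := by gcongr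
        _ = (p * r) ^ 2 := by ring
        _ = 1 := by rw [hpr]; ring
    have j5 : 4 * L ^ 2 * n ^ 2 * (r ^ 2 * (d ^ 2 * p ^ 4 + A * p / 4)) ≤
        4 * L ^ 2 * n ^ 2 + L ^ 2 * A * r * n ^ 2 := by
      rw [j3]
      have : 4 * L ^ 2 * n ^ 2 * (d ^ 2 * p ^ 2) ≤ 4 * L ^ 2 * n ^ 2 * 1 := by gcongr
      linarith
    linarith
  -- F
  have c7 : -(4 * L ^ 7 * (3 / 2 * p + 3 / 4 * A) * n ^ 2) ≤ F := by
    have i1 := neg_abs_le F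
    have i2 : 4 * L ^ 4 * G1 * ζ * n ^ 2 ≤ 4 * L ^ 7 * (3 / 2 * p + 3 / 4 * A) * n ^ 2 := by
      calc 4 * L ^ 4 * G1 * ζ * n ^ 2 = 4 * L ^ 4 * (G1 * ζ) * n ^ 2 := by ring
        _ ≤ 4 * L ^ 7 * (3 / 2 * p + 3 / 4 * A) * n ^ 2 := by gcongr
    linarith
  -- (8)
  have c8 : 66 * L ^ 7 * p * n ^ 2 ≤ n ^ 2 * (A * p / 4) := by
    rw [hA]
    have : 0 ≤ L ^ 7 * p * n ^ 2 := by positivity
    linarith
  have c9 : L ^ 2 * A * r * n ^ 2 ≤ 560 * L ^ 14 * n ^ 2 := by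
    rw [hA]
    calc L ^ 2 * (280 * L ^ 7) * r * n ^ 2 ≤ L ^ 2 * (280 * L ^ 7) * (2 * L ^ 2) * n ^ 2 := by
          gcongr
      _ = 560 * L ^ 11 * n ^ 2 := by ring
      _ ≤ 560 * L ^ 14 * n ^ 2 := by gcongr
  have c10 : 4 * L ^ 2 * n ^ 2 ≤ 4 * L ^ 14 * n ^ 2 := by gcongr
  have c11 : 21 * L ^ 7 * A * n ^ 2 = 5880 * (L ^ 14 * n ^ 2) := by rw [hA]; ring
  have c12 : 0 ≤ L ^ 14 * n ^ 2 := by positivity
  linarith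

/-! ### first derivative bounds -/

theorem norm_qB_le {L : ℝ} (hL : 1 ≤ L) {J : V →L[ℝ] V} (hJ : ‖J‖ ≤ L) (z : V) :
    ‖qB J z‖ ≤ L ^ 2 * ‖z‖ := by
  refine ContinuousLinearMap.opNorm_le_bound _ (by positivity) fun w => ?_
  rw [Real.norm_eq_abs]
  exact abs_qB_le hL hJ z w

theorem g1_nonneg {A s : ℝ} (hA : 0 ≤ A) (hs : 0 ≤ s) : 0 ≤ g1 A s := by
  unfold g1
  positivity

theorem g2_nonneg {A s : ℝ} (hA : 0 ≤ A) (hs : 0 ≤ s) : 0 ≤ g2 A s := by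
  unfold g2
  positivity

theorem norm_dpot_le' {L : ℝ} (hL : 1 ≤ L) {J : V →L[ℝ] V} (hJ : ‖J‖ ≤ L) {A : ℝ} (hA : 0 ≤ A)
    {d : ℝ} (hd : 0 < d) (x y : V) :
    ‖dpot J A d x y‖ ≤ 2 * L ^ 2 * g1 A (SQ J d x y) * ‖y - x‖ := by
  have h1 := norm_qB_le hL hJ (y - x)
  have h2 := g1_nonneg hA (SQ_pos J hd x y).le
  unfold dpot
  rw [norm_smul, Real.norm_eq_abs, abs_of_nonneg (by positivity)]
  calc 2 * g1 A (SQ J d x y) * ‖qB J (y - x)‖ ≤ 2 * g1 A (SQ J d x y) * (L ^ 2 * ‖y - x‖) := by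
        gcongr
    _ = _ := by ring

/-! ### the main inequality -/

/-- `q` of a vector and of its image -/
theorem qB_of_sq {J : V →L[ℝ] V} {v : V} (h : J (J v) = -v) : qB J (J v) (J v) = qB J v v := by
  rw [qB_self, qB_self, h, norm_neg]
  ring

theorem qB_orth {J : V →L[ℝ] V} {v : V} (h : J (J v) = -v) : qB J v (J v) = 0 := by
  rw [qB_apply, h, inner_neg_right, real_inner_comm v (J v)]
  ring

/-- Bessel's inequality for the orthogonal vectors `v`, `J v` of the same length -/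
theorem bessel {J : V →L[ℝ] V} {v : V} (h : J (J v) = -v) (z : V) :
    (qB J z v) ^ 2 + (qB J z (J v)) ^ 2 ≤ qB J z z * qB J v v := by
  set Q := qB J v v with hQ
  have hQ0 : 0 ≤ Q := qB_self_nonneg J v
  rcases hQ0.eq_or_lt with h0 | h0
  · have hv : v = 0 := by
      have h1 := qB_self_ge J v
      have h2 : ‖v‖ ^ 2 ≤ 0 := by rw [← hQ, ← h0] at h1; linarith
      have h3 : ‖v‖ = 0 := by
        have := sq_nonneg ‖v‖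
        exact pow_eq_zero_iff (n := 2) (by norm_num) |>.1 (le_antisymm h2 this)
      exact norm_eq_zero.1 h3
    rw [← h0, hv]
    simp
  · set a := qB J z v with ha
    set b := qB J z (J v) with hb
    have h1 := qB_self_nonneg J (Q • z - a • v - b • J v)
    have h2 : qB J (Q • z - a • v - b • J v) (Q • z - a • v - b • J v) =
        Q * (Q * qB J z z - a ^ 2 - b ^ 2) := by
      have e1 : qB J (J v) (J v) = Q := qB_of_sq h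
      have e2 : qB J v (J v) = 0 := qB_orth h
      have e3 : qB J (J v) v = 0 := by rw [qB_symm, e2]
      have e4 : qB J v z = a := by rw [qB_symm]
      have e5 : qB J (J v) z = b := by rw [qB_symm]
      simp only [map_sub, map_smul, sub_apply, smul_apply,
        smul_eq_mul, e1, e2, e3, e4, e5, ← hQ, ← ha, ← hb]
      ring
    rw [h2] at h1
    have h3 : 0 ≤ Q * qB J z z - a ^ 2 - b ^ 2 := by
      by_contra hc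
      push Not at hc
      have := mul_neg_of_pos_of_neg h0 hc
      linarith
    linarith

theorem abs_sub_le_of {L : ℝ} (hL : 1 ≤ L) {J : V →L[ℝ] V} (hJ : ‖J‖ ≤ L) (v v0 : V) :
    |qB J v v - qB J v0 v0| ≤ L ^ 2 * ‖v - v0‖ * (‖v‖ + ‖v0‖) := by
  have h1 : qB J v v - qB J v0 v0 = qB J (v - v0) (v + v0) := by
    simp only [map_sub, map_add, sub_apply]
    rw [qB_symm J v0 v]
    ring
  rw [h1]
  refine (abs_qB_le hL hJ _ _).trans ?_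
  gcongr
  exact norm_add_le v v0

theorem abs_sq_sub_le_of {L : ℝ} (hL : 1 ≤ L) {J : V →L[ℝ] V} (hJ : ‖J‖ ≤ L) (z v v0 : V) :
    |(qB J z v) ^ 2 - (qB J z v0) ^ 2| ≤ L ^ 4 * ‖z‖ ^ 2 * ‖v - v0‖ * (‖v‖ + ‖v0‖) := by
  have h1 : (qB J z v) ^ 2 - (qB J z v0) ^ 2 = qB J z (v - v0) * qB J z (v + v0) := by
    simp only [map_sub, map_add]
    ring
  rw [h1, abs_mul]
  have h2 := abs_qB_le hL hJ z (v - v0)
  have h3 := abs_qB_le hL hJ z (v + v0)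
  have h4 : ‖v + v0‖ ≤ ‖v‖ + ‖v0‖ := norm_add_le v v0
  calc |qB J z (v - v0)| * |qB J z (v + v0)|
      ≤ (L ^ 2 * ‖z‖ * ‖v - v0‖) * (L ^ 2 * ‖z‖ * (‖v‖ + ‖v0‖)) := by
        refine mul_le_mul h2 (h3.trans ?_) (abs_nonneg _) (by positivity)
        gcongr
    _ = _ := by ring

/-- The pointwise inequality: `z = y - x`, `J = J_x`, `w = J_y v`; `v0` is the part of `v` tangent
at `x` (`J_x J_x v0 = - v0`), `F` is the first order term. -/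
theorem main_pot {L : ℝ} (hL : 1 ≤ L) {J : V →L[ℝ] V} (hJ : ‖J‖ ≤ L) {x y v w v0 : V} {d A : ℝ}
    (hd : 0 < d) (hd1 : d ≤ 1) (hxy : ‖y - x‖ ≤ L) (hA : A = 280 * L ^ 7)
    (hv0 : J (J v0) = -v0) (hn0 : ‖v0‖ ≤ L * ‖v‖) (hw : ‖w‖ ≤ L * ‖v‖)
    (h1 : ‖v - v0‖ ≤ L * ‖y - x‖ * ‖v‖) (h2 : ‖w - J v0‖ ≤ L * ‖y - x‖ * ‖v‖)
    {F : ℝ} (hF : |F| ≤ 2 * L ^ 2 * ‖dpot J A d x y‖ * ‖v‖ ^ 2) :
    ‖v‖ ^ 2 * (d ^ 2 / (SQ J d x y) ^ 2 - 10000 * L ^ 14) ≤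
      ddpot J A d x y v v + ddpot J A d x y w w + F := by
  have hs := SQ_pos J hd x y
  obtain ⟨r, hr, hrs⟩ : ∃ r : ℝ, 0 < r ∧ r ^ 2 = SQ J d x y :=
    ⟨Real.sqrt (SQ J d x y), Real.sqrt_pos.2 hs, Real.sq_sqrt hs.le⟩
  have hsr : Real.sqrt (SQ J d x y) = r := by rw [← hrs, Real.sqrt_sq hr.le]
  have hA0 : 0 ≤ A := by rw [hA]; positivity
  have e1 : g1 A (SQ J d x y) = 1 / r ^ 2 + A / (2 * r) := by
    unfold g1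
    rw [hsr, hrs]
  have e2 : g2 A (SQ J d x y) = 1 / r ^ 4 + A / (4 * r ^ 3) := by
    unfold g2
    rw [hsr, ← hrs]
    congr 1
    · ring
    · congr 1
      ring
  have e3 : d ^ 2 / (SQ J d x y) ^ 2 = d ^ 2 / r ^ 4 := by
    rw [← hrs]
    congr 1
    ring
  have hw0 : ‖J v0‖ ≤ L ^ 2 * ‖v‖ := by
    calc ‖J v0‖ ≤ ‖J‖ * ‖v0‖ := J.le_opNorm v0
      _ ≤ L * (L * ‖v‖) := by gcongr
      _ = L ^ 2 * ‖v‖ := by ring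
  have L1 : (1 : ℝ) ≤ L ^ 2 := one_le_pow₀ hL
  have L12 : L ≤ L ^ 2 := by
    calc L = L ^ 1 := by ring
      _ ≤ L ^ 2 := pow_le_pow_right₀ hL (by norm_num)
  have s1 : ‖v‖ + ‖v0‖ ≤ 2 * L * ‖v‖ := by
    have : ‖v‖ ≤ L * ‖v‖ := le_mul_of_one_le_left (norm_nonneg v) hL
    linarith
  have s2 : ‖w‖ + ‖J v0‖ ≤ 2 * L ^ 2 * ‖v‖ := by
    have : L * ‖v‖ ≤ L ^ 2 * ‖v‖ := by gcongr
    linarith
  rw [e3]
  refine (main_real (ζ := ‖y - x‖) (r := r) (d := d) (n := ‖v‖) (Qv := qB J v v)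
    (Qw := qB J w w) (Q0 := qB J v0 v0) (a := qB J (y - x) v) (b := qB J (y - x) w)
    (a0 := qB J (y - x) v0) (b0 := qB J (y - x) (J v0)) (F := F) (A := A) hL hr (norm_nonneg _) hA
    ?_ ?_ ?_ (qB_self_nonneg J v0) ?_ ?_ ?_ ?_ ?_ ?_ ?_).trans (le_of_eq ?_)
  · have := SQ_ge J d x y
    have h0 : 0 < d ^ 2 := by positivity
    rw [hrs]
    linarith
  · have h3 := SQ_le hL hJ d x y
    refine le_of_sq_le_sq ?_ (by positivity)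
    rw [hrs]
    have h4 : ‖y - x‖ ^ 2 ≤ L ^ 2 := by gcongr
    have h5 : d ^ 2 ≤ L ^ 2 := by
      calc d ^ 2 ≤ 1 ^ 2 := by gcongr
        _ ≤ L ^ 2 := by linarith
    calc SQ J d x y ≤ L ^ 2 * (‖y - x‖ ^ 2 + d ^ 2) := h3
      _ ≤ L ^ 2 * (L ^ 2 + L ^ 2) := by gcongr
      _ ≤ (2 * L ^ 2) ^ 2 := by
        have w1 := sq_nonneg (L ^ 2)
        linarith only [w1]
  · rw [hrs]
    unfold SQ
    have := qB_self_nonneg J (y - x)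
    linarith
  · refine (bessel hv0 (y - x)).trans (le_of_eq ?_)
    rw [hrs]
    unfold SQ
    ring
  · refine (abs_sub_le_of hL hJ v v0).trans ?_
    calc L ^ 2 * ‖v - v0‖ * (‖v‖ + ‖v0‖)
        ≤ L ^ 2 * (L * ‖y - x‖ * ‖v‖) * (2 * L * ‖v‖) := by gcongr
      _ = 2 * L ^ 4 * ‖y - x‖ * ‖v‖ ^ 2 := by ring
  · rw [← qB_of_sq hv0]
    refine (abs_sub_le_of hL hJ w (J v0)).trans ?_
    calc L ^ 2 * ‖w - J v0‖ * (‖w‖ + ‖J v0‖)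
        ≤ L ^ 2 * (L * ‖y - x‖ * ‖v‖) * (2 * L ^ 2 * ‖v‖) := by gcongr
      _ = 2 * L ^ 5 * ‖y - x‖ * ‖v‖ ^ 2 := by ring
  · refine (abs_sq_sub_le_of hL hJ (y - x) v v0).trans ?_
    calc L ^ 4 * ‖y - x‖ ^ 2 * ‖v - v0‖ * (‖v‖ + ‖v0‖)
        ≤ L ^ 4 * ‖y - x‖ ^ 2 * (L * ‖y - x‖ * ‖v‖) * (2 * L * ‖v‖) := by gcongr
      _ = 2 * L ^ 6 * ‖y - x‖ ^ 3 * ‖v‖ ^ 2 := by ring
  · refine (abs_sq_sub_le_of hL hJ (y - x) w (J v0)).trans ?_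
    calc L ^ 4 * ‖y - x‖ ^ 2 * ‖w - J v0‖ * (‖w‖ + ‖J v0‖)
        ≤ L ^ 4 * ‖y - x‖ ^ 2 * (L * ‖y - x‖ * ‖v‖) * (2 * L ^ 2 * ‖v‖) := by gcongr
      _ = 2 * L ^ 7 * ‖y - x‖ ^ 3 * ‖v‖ ^ 2 := by ring
  · have h3 := qB_self_ge J v0
    have h4 : ‖v‖ ^ 2 ≤ 2 * ‖v0‖ ^ 2 + 2 * ‖v - v0‖ ^ 2 := by
      have h5 : ‖v‖ ≤ ‖v0‖ + ‖v - v0‖ := by
        calc ‖v‖ = ‖v0 + (v - v0)‖ := by congr 1; abel
          _ ≤ _ := norm_add_le _ _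
      have w1 : ‖v‖ ^ 2 ≤ (‖v0‖ + ‖v - v0‖) ^ 2 := pow_le_pow_left₀ (norm_nonneg v) h5 2
      have w2 := sq_nonneg (‖v0‖ - ‖v - v0‖)
      linarith only [w1, w2]
    have h6 : ‖v - v0‖ ^ 2 ≤ L ^ 2 * ‖y - x‖ ^ 2 * ‖v‖ ^ 2 := by
      calc ‖v - v0‖ ^ 2 ≤ (L * ‖y - x‖ * ‖v‖) ^ 2 := by gcongr
        _ = _ := by ring
    linarith
  · refine hF.trans ?_
    have h3 := norm_dpot_le' hL hJ hA0 hd x y
    rw [e1] at h3
    calc 2 * L ^ 2 * ‖dpot J A d x y‖ * ‖v‖ ^ 2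
        ≤ 2 * L ^ 2 * (2 * L ^ 2 * (1 / r ^ 2 + A / (2 * r)) * ‖y - x‖) * ‖v‖ ^ 2 := by gcongr
      _ = _ := by ring
  · rw [ddpot_apply, ddpot_apply, e1, e2]
    ring


/-! ### upper bounds -/

theorem sqrt_SQ_le {L : ℝ} (hL : 1 ≤ L) {J : V →L[ℝ] V} (hJ : ‖J‖ ≤ L) {d : ℝ} (hd : 0 < d)
    (hd1 : d ≤ 1) {x y : V} (hxy : ‖y - x‖ ≤ L) : Real.sqrt (SQ J d x y) ≤ 2 * L ^ 2 := by
  have h3 := SQ_le hL hJ d x y
  have L1 : (1 : ℝ) ≤ L ^ 2 := one_le_pow₀ hL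
  refine le_of_sq_le_sq ?_ (by positivity)
  rw [Real.sq_sqrt (SQ_pos J hd x y).le]
  have h4 : ‖y - x‖ ^ 2 ≤ L ^ 2 := by gcongr
  have h5 : d ^ 2 ≤ L ^ 2 := by
    calc d ^ 2 ≤ 1 ^ 2 := by gcongr
      _ ≤ L ^ 2 := by linarith
  calc SQ J d x y ≤ L ^ 2 * (‖y - x‖ ^ 2 + d ^ 2) := h3
    _ ≤ L ^ 2 * (L ^ 2 + L ^ 2) := by gcongr
    _ ≤ (2 * L ^ 2) ^ 2 := by
        have w1 := sq_nonneg (L ^ 2)
        linarith only [w1]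

theorem g1_le {L : ℝ} (hL : 1 ≤ L) {J : V →L[ℝ] V} (hJ : ‖J‖ ≤ L) {d : ℝ} (hd : 0 < d)
    (hd1 : d ≤ 1) {x y : V} (hxy : ‖y - x‖ ≤ L) {A : ℝ} (hA : A = 280 * L ^ 7) :
    g1 A (SQ J d x y) ≤ 562 * L ^ 9 / (‖y - x‖ ^ 2 + d ^ 2) := by
  have hs := SQ_pos J hd x y
  have hr : 0 < Real.sqrt (SQ J d x y) := Real.sqrt_pos.2 hs
  have hr2 := sqrt_SQ_le hL hJ hd hd1 hxy
  have hA0 : 0 ≤ A := by rw [hA]; positivity
  have hrs : Real.sqrt (SQ J d x y) ^ 2 = SQ J d x y := Real.sq_sqrt hs.le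
  have h1 : g1 A (SQ J d x y) ≤ 281 * L ^ 9 / SQ J d x y := by
    have e1 : A / (2 * Real.sqrt (SQ J d x y)) = A * Real.sqrt (SQ J d x y) / 2 / SQ J d x y := by
      field_simp
      rw [hrs]
    have e2 : g1 A (SQ J d x y) = (1 + A * Real.sqrt (SQ J d x y) / 2) / SQ J d x y := by
      unfold g1
      rw [e1]
      ring
    rw [e2]
    gcongr
    have h3 : A * Real.sqrt (SQ J d x y) ≤ A * (2 * L ^ 2) := by gcongr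
    have h4 : (1 : ℝ) ≤ L ^ 9 := one_le_pow₀ hL
    rw [hA] at h3 ⊢
    linarith only [h3, h4]
  refine h1.trans ?_
  have h2 : 0 < ‖y - x‖ ^ 2 + d ^ 2 := by positivity
  rw [div_le_div_iff₀ hs h2]
  have h3 := SQ_ge J d x y
  have h4 : ‖y - x‖ ^ 2 + d ^ 2 ≤ 2 * SQ J d x y := by
    have w1 := sq_nonneg d
    linarith only [h3, w1]
  calc 281 * L ^ 9 * (‖y - x‖ ^ 2 + d ^ 2) ≤ 281 * L ^ 9 * (2 * SQ J d x y) := by gcongr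
    _ = _ := by ring

/-- `|Du| ≤ C / √(|y - x|² + d²)` -/
theorem norm_dpot_le {L : ℝ} (hL : 1 ≤ L) {J : V →L[ℝ] V} (hJ : ‖J‖ ≤ L) {d : ℝ} (hd : 0 < d)
    (hd1 : d ≤ 1) {x y : V} (hxy : ‖y - x‖ ≤ L) {A : ℝ} (hA : A = 280 * L ^ 7) :
    ‖dpot J A d x y‖ ≤ 1124 * L ^ 11 / Real.sqrt (‖y - x‖ ^ 2 + d ^ 2) := by
  have hA0 : 0 ≤ A := by rw [hA]; positivity
  have h0 : 0 < ‖y - x‖ ^ 2 + d ^ 2 := by positivity
  have hr : 0 < Real.sqrt (‖y - x‖ ^ 2 + d ^ 2) := Real.sqrt_pos.2 h0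
  have hrs : Real.sqrt (‖y - x‖ ^ 2 + d ^ 2) ^ 2 = ‖y - x‖ ^ 2 + d ^ 2 := Real.sq_sqrt h0.le
  have h1 := norm_dpot_le' hL hJ hA0 hd x y
  have h2 := g1_le hL hJ hd hd1 hxy hA
  have h3 : ‖y - x‖ ≤ Real.sqrt (‖y - x‖ ^ 2 + d ^ 2) := by
    apply Real.le_sqrt_of_sq_le
    have w1 := sq_nonneg d
    linarith only [w1]
  calc ‖dpot J A d x y‖ ≤ 2 * L ^ 2 * g1 A (SQ J d x y) * ‖y - x‖ := h1
    _ ≤ 2 * L ^ 2 * (562 * L ^ 9 / (‖y - x‖ ^ 2 + d ^ 2)) *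
        Real.sqrt (‖y - x‖ ^ 2 + d ^ 2) := by gcongr
    _ = 2 * L ^ 2 * (562 * L ^ 9 / Real.sqrt (‖y - x‖ ^ 2 + d ^ 2) ^ 2) *
        Real.sqrt (‖y - x‖ ^ 2 + d ^ 2) := by rw [hrs]
    _ = _ := by
      field_simp
      ring

/-- `|D²u(v, w)| ≤ C |v| |w| / (|y - x|² + d²)` -/
theorem abs_ddpot_le {L : ℝ} (hL : 1 ≤ L) {J : V →L[ℝ] V} (hJ : ‖J‖ ≤ L) {d : ℝ} (hd : 0 < d)
    (hd1 : d ≤ 1) {x y : V} (hxy : ‖y - x‖ ≤ L) {A : ℝ} (hA : A = 280 * L ^ 7) (v w : V) :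
    |ddpot J A d x y v w| ≤ 5620 * L ^ 13 / (‖y - x‖ ^ 2 + d ^ 2) * ‖v‖ * ‖w‖ := by
  have hA0 : 0 ≤ A := by rw [hA]; positivity
  have hs := SQ_pos J hd x y
  have h0 : 0 < ‖y - x‖ ^ 2 + d ^ 2 := by positivity
  have hg1 := g1_nonneg hA0 hs.le
  have hg2 := g2_nonneg hA0 hs.le
  have h2 := g1_le hL hJ hd hd1 hxy hA
  have h3 : g2 A (SQ J d x y) * SQ J d x y ≤ g1 A (SQ J d x y) := by
    unfold g1 g2
    have hr : 0 < Real.sqrt (SQ J d x y) := Real.sqrt_pos.2 hs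
    have e : (1 / SQ J d x y ^ 2 + A / (4 * SQ J d x y * Real.sqrt (SQ J d x y))) * SQ J d x y =
        1 / SQ J d x y + A / (2 * Real.sqrt (SQ J d x y)) / 2 := by
      field_simp
      ring
    rw [e]
    have : 0 ≤ A / (2 * Real.sqrt (SQ J d x y)) := by positivity
    linarith
  have h4 : ‖y - x‖ ^ 2 ≤ 2 * SQ J d x y := by
    have w1 := sq_nonneg d
    have w2 := SQ_ge J d x y
    linarith only [w1, w2]
  have h5 : |qB J v w| ≤ L ^ 2 * ‖v‖ * ‖w‖ := abs_qB_le hL hJ v w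
  have h6 : |qB J (y - x) v| ≤ L ^ 2 * ‖y - x‖ * ‖v‖ := abs_qB_le hL hJ _ _
  have h7 : |qB J (y - x) w| ≤ L ^ 2 * ‖y - x‖ * ‖w‖ := abs_qB_le hL hJ _ _
  have h8 : |qB J (y - x) v * qB J (y - x) w| ≤ L ^ 4 * (2 * SQ J d x y) * (‖v‖ * ‖w‖) := by
    rw [abs_mul]
    calc |qB J (y - x) v| * |qB J (y - x) w|
        ≤ (L ^ 2 * ‖y - x‖ * ‖v‖) * (L ^ 2 * ‖y - x‖ * ‖w‖) :=
          mul_le_mul h6 h7 (abs_nonneg _) (by positivity)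
      _ = L ^ 4 * ‖y - x‖ ^ 2 * (‖v‖ * ‖w‖) := by ring
      _ ≤ L ^ 4 * (2 * SQ J d x y) * (‖v‖ * ‖w‖) := by gcongr
  have h9 : |ddpot J A d x y v w| ≤ 2 * g1 A (SQ J d x y) * (L ^ 2 * ‖v‖ * ‖w‖) +
      4 * g2 A (SQ J d x y) * (L ^ 4 * (2 * SQ J d x y) * (‖v‖ * ‖w‖)) := by
    rw [ddpot_apply]
    refine (abs_sub _ _).trans ?_
    rw [abs_mul, abs_mul (4 * g2 A (SQ J d x y)), abs_of_nonneg (by positivity : 0 ≤ 2 * g1 A (SQ J d x y)),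
      abs_of_nonneg (by positivity : 0 ≤ 4 * g2 A (SQ J d x y))]
    gcongr
  have L24 : L ^ 2 ≤ L ^ 4 := pow_le_pow_right₀ hL (by norm_num)
  have h10 : |ddpot J A d x y v w| ≤ 10 * L ^ 4 * g1 A (SQ J d x y) * (‖v‖ * ‖w‖) := by
    refine h9.trans ?_
    have i1 : 2 * g1 A (SQ J d x y) * (L ^ 2 * ‖v‖ * ‖w‖) ≤
        2 * g1 A (SQ J d x y) * (L ^ 4 * ‖v‖ * ‖w‖) := by gcongr
    have i2 : 4 * g2 A (SQ J d x y) * (L ^ 4 * (2 * SQ J d x y) * (‖v‖ * ‖w‖)) =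
        8 * L ^ 4 * (g2 A (SQ J d x y) * SQ J d x y) * (‖v‖ * ‖w‖) := by ring
    have i3 : 8 * L ^ 4 * (g2 A (SQ J d x y) * SQ J d x y) * (‖v‖ * ‖w‖) ≤
        8 * L ^ 4 * g1 A (SQ J d x y) * (‖v‖ * ‖w‖) := by gcongr
    rw [i2]
    linarith
  refine h10.trans ?_
  calc 10 * L ^ 4 * g1 A (SQ J d x y) * (‖v‖ * ‖w‖)
      ≤ 10 * L ^ 4 * (562 * L ^ 9 / (‖y - x‖ ^ 2 + d ^ 2)) * (‖v‖ * ‖w‖) := by gcongr
    _ = _ := by ring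


/-! ### the extrinsic `d (J du)` -/

/-- the 1-form `α y = - (Du (ρ y)) ∘ J̃ y` -/
noncomputable def alphaForm (Du : V → V →L[ℝ] ℝ) (ρ : V → V) (Jt : V → V →L[ℝ] V) (y : V) :
    V →L[ℝ] ℝ := -((Du (ρ y)).comp (Jt y))

/-- `dα (v, w) = (D_v α) w - (D_w α) v` -/
noncomputable def dOne (α : V → V →L[ℝ] ℝ) (y v w : V) : ℝ := fderiv ℝ α y v w - fderiv ℝ α y w v

theorem fderiv_alphaForm {Du : V → V →L[ℝ] ℝ} {ρ : V → V} {Jt : V → V →L[ℝ] V} {y : V}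
    {DDu : V →L[ℝ] V →L[ℝ] ℝ} {P : V →L[ℝ] V} {K : V →L[ℝ] V →L[ℝ] V} (hy : ρ y = y)
    (hD : HasFDerivAt Du DDu y) (hρ : HasFDerivAt ρ P y) (hK : HasFDerivAt Jt K y) (v w : V) :
    fderiv ℝ (alphaForm Du ρ Jt) y v w = -(DDu (P v) (Jt y w)) - Du y (K v w) := by
  have h1 : HasFDerivAt (fun y => Du (ρ y)) (DDu.comp P) y := by
    have : HasFDerivAt Du DDu (ρ y) := by rwa [hy]
    exact this.comp y hρ
  have h2 := (h1.clm_comp hK).neg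
  have h3 : HasFDerivAt (alphaForm Du ρ Jt) _ y := h2
  rw [h3.fderiv]
  simp [hy]
  ring

/-- the formula for `d (J du) (v, w)`, `v`, `w` tangent -/
theorem dOne_alphaForm {Du : V → V →L[ℝ] ℝ} {ρ : V → V} {Jt : V → V →L[ℝ] V} {y : V}
    {DDu : V →L[ℝ] V →L[ℝ] ℝ} {P : V →L[ℝ] V} {K : V →L[ℝ] V →L[ℝ] V} (hy : ρ y = y)
    (hD : HasFDerivAt Du DDu y) (hρ : HasFDerivAt ρ P y) (hK : HasFDerivAt Jt K y)
    {v w : V} (hv : P v = v) (hw : P w = w) :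
    dOne (alphaForm Du ρ Jt) y v w =
      DDu w (Jt y v) - DDu v (Jt y w) + Du y (K w v) - Du y (K v w) := by
  unfold dOne
  rw [fderiv_alphaForm hy hD hρ hK, fderiv_alphaForm hy hD hρ hK, hv, hw]
  ring

/-- on `(v, J v)` -/
theorem dOne_alphaForm_J {Du : V → V →L[ℝ] ℝ} {ρ : V → V} {Jt : V → V →L[ℝ] V} {y : V}
    {DDu : V →L[ℝ] V →L[ℝ] ℝ} {P : V →L[ℝ] V} {K : V →L[ℝ] V →L[ℝ] V} (hy : ρ y = y)
    (hD : HasFDerivAt Du DDu y) (hρ : HasFDerivAt ρ P y) (hK : HasFDerivAt Jt K y)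
    {v : V} (hv : P v = v) (hw : P (Jt y v) = Jt y v) (hJ : Jt y (Jt y v) = -v) :
    dOne (alphaForm Du ρ Jt) y v (Jt y v) =
      DDu v v + DDu (Jt y v) (Jt y v) + (Du y (K (Jt y v) v) - Du y (K v (Jt y v))) := by
  rw [dOne_alphaForm hy hD hρ hK hv hw, hJ]
  simp
  ring

/-- the anti-invariant part contains only first derivatives -/
theorem dOne_alphaForm_anti {Du : V → V →L[ℝ] ℝ} {ρ : V → V} {Jt : V → V →L[ℝ] V} {y : V}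
    {DDu : V →L[ℝ] V →L[ℝ] ℝ} {P : V →L[ℝ] V} {K : V →L[ℝ] V →L[ℝ] V} (hy : ρ y = y)
    (hD : HasFDerivAt Du DDu y) (hρ : HasFDerivAt ρ P y) (hK : HasFDerivAt Jt K y)
    (hsymm : ∀ a b, DDu a b = DDu b a)
    {v w : V} (hv : P v = v) (hw : P w = w) (hJv' : P (Jt y v) = Jt y v)
    (hJw' : P (Jt y w) = Jt y w) (hJv : Jt y (Jt y v) = -v) (hJw : Jt y (Jt y w) = -w) :
    dOne (alphaForm Du ρ Jt) y v w - dOne (alphaForm Du ρ Jt) y (Jt y v) (Jt y w) =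
      Du y (K w v - K v w - K (Jt y w) (Jt y v) + K (Jt y v) (Jt y w)) := by
  rw [dOne_alphaForm hy hD hρ hK hv hw, dOne_alphaForm hy hD hρ hK hJv' hJw', hJv, hJw]
  simp only [map_neg, map_add, map_sub]
  rw [hsymm (Jt y w) v, hsymm (Jt y v) w]
  ring

/-- **The logarithmic potential**, lower bound: the data at the point `y` are `ρ y = y`,
`P = Dρ_y`, `J̃ y = Jt y`, `K = DJ̃_y`, and `v` is a tangent vector at `y`; `J = J̃_x`, `v0` is the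
tangential part of `v` at `x`. -/
theorem logPot_lower {L : ℝ} (hL : 1 ≤ L) {ρ : V → V} {Jt : V → V →L[ℝ] V} {x y v v0 : V}
    {P : V →L[ℝ] V} {K : V →L[ℝ] V →L[ℝ] V} (hy : ρ y = y) (hρ : HasFDerivAt ρ P y)
    (hK : HasFDerivAt Jt K y) (hv : P v = v) (hw : P (Jt y v) = Jt y v)
    (hJJ : Jt y (Jt y v) = -v) (hJx : ‖Jt x‖ ≤ L) (hJy : ‖Jt y‖ ≤ L) (hKL : ‖K‖ ≤ L)
    (hxy : ‖y - x‖ ≤ L) (hv0 : Jt x (Jt x v0) = -v0) (hn0 : ‖v0‖ ≤ L * ‖v‖)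
    (h1 : ‖v - v0‖ ≤ L * ‖y - x‖ * ‖v‖) (h2 : ‖Jt y v - Jt x v0‖ ≤ L * ‖y - x‖ * ‖v‖)
    {d A : ℝ} (hd : 0 < d) (hd1 : d ≤ 1) (hA : A = 280 * L ^ 7) :
    ‖v‖ ^ 2 * (d ^ 2 / (L ^ 4 * (‖y - x‖ ^ 2 + d ^ 2) ^ 2) - 10000 * L ^ 14) ≤
      dOne (alphaForm (dpot (Jt x) A d x) ρ Jt) y v (Jt y v) := by
  rw [dOne_alphaForm_J hy (hasFDerivAt_dpot (Jt x) A hd x y) hρ hK hv hw hJJ]
  have hs := SQ_pos (Jt x) hd x y
  have hw' : ‖Jt y v‖ ≤ L * ‖v‖ := by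
    calc ‖Jt y v‖ ≤ ‖Jt y‖ * ‖v‖ := (Jt y).le_opNorm v
      _ ≤ L * ‖v‖ := by gcongr
  refine le_trans ?_ (main_pot hL hJx hd hd1 hxy hA hv0 hn0 hw' h1 h2
    (F := dpot (Jt x) A d x y (K (Jt y v) v) - dpot (Jt x) A d x y (K v (Jt y v))) ?_)
  · refine mul_le_mul_of_nonneg_left ?_ (sq_nonneg _)
    refine sub_le_sub_right ?_ _
    refine div_le_div_of_nonneg_left (sq_nonneg d) (by positivity) ?_
    have h3 := SQ_le hL hJx d x y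
    calc (SQ (Jt x) d x y) ^ 2 ≤ (L ^ 2 * (‖y - x‖ ^ 2 + d ^ 2)) ^ 2 := by gcongr
      _ = _ := by ring
  · have i1 : |dpot (Jt x) A d x y (K (Jt y v) v)| ≤
        ‖dpot (Jt x) A d x y‖ * (L * (L * ‖v‖) * ‖v‖) := by
      refine ((dpot (Jt x) A d x y).le_opNorm _).trans ?_
      refine mul_le_mul_of_nonneg_left ?_ (norm_nonneg _)
      refine (K.le_opNorm₂ _ _).trans ?_
      gcongr
    have i2 : |dpot (Jt x) A d x y (K v (Jt y v))| ≤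
        ‖dpot (Jt x) A d x y‖ * (L * ‖v‖ * (L * ‖v‖)) := by
      refine ((dpot (Jt x) A d x y).le_opNorm _).trans ?_
      refine mul_le_mul_of_nonneg_left ?_ (norm_nonneg _)
      refine (K.le_opNorm₂ _ _).trans ?_
      gcongr
    refine (abs_sub _ _).trans ?_
    calc _ ≤ ‖dpot (Jt x) A d x y‖ * (L * (L * ‖v‖) * ‖v‖) +
        ‖dpot (Jt x) A d x y‖ * (L * ‖v‖ * (L * ‖v‖)) := add_le_add i1 i2
      _ = _ := by ring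

/-- upper bound for all pairs of tangent vectors -/
theorem logPot_upper {L : ℝ} (hL : 1 ≤ L) {ρ : V → V} {Jt : V → V →L[ℝ] V} {x y v w : V}
    {P : V →L[ℝ] V} {K : V →L[ℝ] V →L[ℝ] V} (hy : ρ y = y) (hρ : HasFDerivAt ρ P y)
    (hK : HasFDerivAt Jt K y) (hv : P v = v) (hw : P w = w)
    (hJx : ‖Jt x‖ ≤ L) (hJy : ‖Jt y‖ ≤ L) (hKL : ‖K‖ ≤ L)
    (hxy : ‖y - x‖ ≤ L) {d A : ℝ} (hd : 0 < d) (hd1 : d ≤ 1) (hA : A = 280 * L ^ 7) :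
    |dOne (alphaForm (dpot (Jt x) A d x) ρ Jt) y v w| ≤
      20000 * L ^ 14 / (‖y - x‖ ^ 2 + d ^ 2) * ‖v‖ * ‖w‖ := by
  have hA0 : 0 ≤ A := by rw [hA]; positivity
  rw [dOne_alphaForm hy (hasFDerivAt_dpot (Jt x) A hd x y) hρ hK hv hw]
  have h0 : 0 < ‖y - x‖ ^ 2 + d ^ 2 := by positivity
  have hJ1 : ∀ u, ‖Jt y u‖ ≤ L * ‖u‖ := fun u => by
    calc ‖Jt y u‖ ≤ ‖Jt y‖ * ‖u‖ := (Jt y).le_opNorm u
      _ ≤ L * ‖u‖ := by gcongr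
  have hD : ‖dpot (Jt x) A d x y‖ ≤ 1124 * L ^ 12 / (‖y - x‖ ^ 2 + d ^ 2) := by
    have h1 := norm_dpot_le' hL hJx hA0 hd x y
    have h2 := g1_le hL hJx hd hd1 hxy hA
    have hg1 := g1_nonneg hA0 (SQ_pos (Jt x) hd x y).le
    calc ‖dpot (Jt x) A d x y‖ ≤ 2 * L ^ 2 * g1 A (SQ (Jt x) d x y) * ‖y - x‖ := h1
      _ ≤ 2 * L ^ 2 * (562 * L ^ 9 / (‖y - x‖ ^ 2 + d ^ 2)) * L := by gcongr
      _ = _ := by ring
  have i1 : |ddpot (Jt x) A d x y w (Jt y v)| ≤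
      5620 * (L ^ 14 / (‖y - x‖ ^ 2 + d ^ 2) * ‖v‖ * ‖w‖) := by
    refine (abs_ddpot_le hL hJx hd hd1 hxy hA w (Jt y v)).trans ?_
    calc 5620 * L ^ 13 / (‖y - x‖ ^ 2 + d ^ 2) * ‖w‖ * ‖Jt y v‖
        ≤ 5620 * L ^ 13 / (‖y - x‖ ^ 2 + d ^ 2) * ‖w‖ * (L * ‖v‖) := by gcongr; exact hJ1 v
      _ = _ := by ring
  have i2 : |ddpot (Jt x) A d x y v (Jt y w)| ≤
      5620 * (L ^ 14 / (‖y - x‖ ^ 2 + d ^ 2) * ‖v‖ * ‖w‖) := by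
    refine (abs_ddpot_le hL hJx hd hd1 hxy hA v (Jt y w)).trans ?_
    calc 5620 * L ^ 13 / (‖y - x‖ ^ 2 + d ^ 2) * ‖v‖ * ‖Jt y w‖
        ≤ 5620 * L ^ 13 / (‖y - x‖ ^ 2 + d ^ 2) * ‖v‖ * (L * ‖w‖) := by gcongr; exact hJ1 w
      _ = _ := by ring
  have L1 : L ^ 13 ≤ L ^ 14 := pow_le_pow_right₀ hL (by norm_num)
  have i3 : ∀ a b, |dpot (Jt x) A d x y (K a b)| ≤
      1124 * (L ^ 14 / (‖y - x‖ ^ 2 + d ^ 2) * ‖a‖ * ‖b‖) := fun a b => by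
    refine ((dpot (Jt x) A d x y).le_opNorm _).trans ?_
    have j1 : ‖K a b‖ ≤ L * ‖a‖ * ‖b‖ := (K.le_opNorm₂ _ _).trans (by gcongr)
    calc ‖dpot (Jt x) A d x y‖ * ‖K a b‖
        ≤ 1124 * L ^ 12 / (‖y - x‖ ^ 2 + d ^ 2) * (L * ‖a‖ * ‖b‖) := by gcongr
      _ = 1124 * (L ^ 13 / (‖y - x‖ ^ 2 + d ^ 2) * ‖a‖ * ‖b‖) := by ring
      _ ≤ _ := by gcongr
  have i4 := i3 w v
  have i5 := i3 v w
  have e4 : L ^ 14 / (‖y - x‖ ^ 2 + d ^ 2) * ‖w‖ * ‖v‖ =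
      L ^ 14 / (‖y - x‖ ^ 2 + d ^ 2) * ‖v‖ * ‖w‖ := by ring
  rw [e4] at i4
  have pos : 0 ≤ L ^ 14 / (‖y - x‖ ^ 2 + d ^ 2) * ‖v‖ * ‖w‖ := by positivity
  have e : 20000 * L ^ 14 / (‖y - x‖ ^ 2 + d ^ 2) * ‖v‖ * ‖w‖ =
      20000 * (L ^ 14 / (‖y - x‖ ^ 2 + d ^ 2) * ‖v‖ * ‖w‖) := by ring
  rw [e]
  rw [abs_le] at i1 i2 i4 i5 ⊢
  constructor
  · linarith [i1.1, i1.2, i2.1, i2.2, i4.1, i4.2, i5.1, i5.2]
  · linarith [i1.1, i1.2, i2.1, i2.2, i4.1, i4.2, i5.1, i5.2]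

/-- the anti-invariant part is `O(1 / √(|y - x|² + d²))` -/
theorem logPot_anti {L : ℝ} (hL : 1 ≤ L) {ρ : V → V} {Jt : V → V →L[ℝ] V} {x y v w : V}
    {P : V →L[ℝ] V} {K : V →L[ℝ] V →L[ℝ] V} (hy : ρ y = y) (hρ : HasFDerivAt ρ P y)
    (hK : HasFDerivAt Jt K y) (hv : P v = v) (hw : P w = w) (hJv' : P (Jt y v) = Jt y v)
    (hJw' : P (Jt y w) = Jt y w) (hJv : Jt y (Jt y v) = -v) (hJw : Jt y (Jt y w) = -w)
    (hJx : ‖Jt x‖ ≤ L) (hJy : ‖Jt y‖ ≤ L) (hKL : ‖K‖ ≤ L)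
    (hxy : ‖y - x‖ ≤ L) {d A : ℝ} (hd : 0 < d) (hd1 : d ≤ 1) (hA : A = 280 * L ^ 7) :
    |dOne (alphaForm (dpot (Jt x) A d x) ρ Jt) y v w -
        dOne (alphaForm (dpot (Jt x) A d x) ρ Jt) y (Jt y v) (Jt y w)| ≤
      5000 * L ^ 14 / Real.sqrt (‖y - x‖ ^ 2 + d ^ 2) * ‖v‖ * ‖w‖ := by
  have hsymm : ∀ a b, ddpot (Jt x) A d x y a b = ddpot (Jt x) A d x y b a := fun a b => by
    rw [ddpot_apply, ddpot_apply, qB_symm _ a b]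
    ring
  rw [dOne_alphaForm_anti hy (hasFDerivAt_dpot (Jt x) A hd x y) hρ hK hsymm hv hw hJv' hJw' hJv hJw]
  have hJ1 : ∀ u, ‖Jt y u‖ ≤ L * ‖u‖ := fun u => by
    calc ‖Jt y u‖ ≤ ‖Jt y‖ * ‖u‖ := (Jt y).le_opNorm u
      _ ≤ L * ‖u‖ := by gcongr
  have hKa : ∀ a b, ‖K a b‖ ≤ L * ‖a‖ * ‖b‖ := fun a b => (K.le_opNorm₂ _ _).trans (by gcongr)
  have hD := norm_dpot_le hL hJx hd hd1 hxy hA
  have L13 : L ≤ L ^ 3 := by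
    calc L = L ^ 1 := by ring
      _ ≤ L ^ 3 := pow_le_pow_right₀ hL (by norm_num)
  have h1 : ‖K w v - K v w - K (Jt y w) (Jt y v) + K (Jt y v) (Jt y w)‖ ≤
      4 * L ^ 3 * (‖v‖ * ‖w‖) := by
    have j1 : ‖K w v‖ ≤ L ^ 3 * (‖v‖ * ‖w‖) := by
      calc ‖K w v‖ ≤ L * ‖w‖ * ‖v‖ := hKa w v
        _ = L * (‖v‖ * ‖w‖) := by ring
        _ ≤ _ := by gcongr
    have j2 : ‖K v w‖ ≤ L ^ 3 * (‖v‖ * ‖w‖) := by
      calc ‖K v w‖ ≤ L * ‖v‖ * ‖w‖ := hKa v w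
        _ = L * (‖v‖ * ‖w‖) := by ring
        _ ≤ _ := by gcongr
    have j3 : ‖K (Jt y w) (Jt y v)‖ ≤ L ^ 3 * (‖v‖ * ‖w‖) := by
      calc ‖K (Jt y w) (Jt y v)‖ ≤ L * ‖Jt y w‖ * ‖Jt y v‖ := hKa _ _
        _ ≤ L * (L * ‖w‖) * (L * ‖v‖) := by
          gcongr
          · exact hJ1 w
          · exact hJ1 v
        _ = _ := by ring
    have j4 : ‖K (Jt y v) (Jt y w)‖ ≤ L ^ 3 * (‖v‖ * ‖w‖) := by
      calc ‖K (Jt y v) (Jt y w)‖ ≤ L * ‖Jt y v‖ * ‖Jt y w‖ := hKa _ _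
        _ ≤ L * (L * ‖v‖) * (L * ‖w‖) := by
          gcongr
          · exact hJ1 v
          · exact hJ1 w
        _ = _ := by ring
    have k1 := norm_add_le (K w v - K v w - K (Jt y w) (Jt y v)) (K (Jt y v) (Jt y w))
    have k2 := norm_sub_le (K w v - K v w) (K (Jt y w) (Jt y v))
    have k3 := norm_sub_le (K w v) (K v w)
    linarith
  refine ((dpot (Jt x) A d x y).le_opNorm _).trans ?_
  calc ‖dpot (Jt x) A d x y‖ * ‖K w v - K v w - K (Jt y w) (Jt y v) + K (Jt y v) (Jt y w)‖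
      ≤ (1124 * L ^ 11 / Real.sqrt (‖y - x‖ ^ 2 + d ^ 2)) * (4 * L ^ 3 * (‖v‖ * ‖w‖)) := by
        gcongr
    _ = 4496 * L ^ 14 / Real.sqrt (‖y - x‖ ^ 2 + d ^ 2) * ‖v‖ * ‖w‖ := by ring
    _ ≤ _ := by gcongr; norm_num


/-! ### smoothness -/

open scoped ContDiff

theorem contDiff_SQ (J : V →L[ℝ] V) (d : ℝ) (x : V) : ContDiff ℝ ∞ (SQ J d x) := by
  unfold SQ
  have h1 : ContDiff ℝ ∞ (fun y : V => y - x) := contDiff_id.sub contDiff_const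
  have h2 : ContDiff ℝ ∞ (fun y : V => qB J (y - x)) := (qB J).contDiff.comp h1
  exact (h2.clm_apply h1).add contDiff_const

theorem contDiff_pot (J : V →L[ℝ] V) (A : ℝ) {d : ℝ} (hd : 0 < d) (x : V) :
    ContDiff ℝ ∞ (pot J A d x) := by
  unfold pot
  have h0 : ∀ y, SQ J d x y ≠ 0 := fun y => (SQ_pos J hd x y).ne'
  exact ((contDiff_SQ J d x).log h0).add (contDiff_const.mul ((contDiff_SQ J d x).sqrt h0))

theorem fderiv_pot (J : V →L[ℝ] V) (A : ℝ) {d : ℝ} (hd : 0 < d) (x : V) :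
    fderiv ℝ (pot J A d x) = dpot J A d x := by
  ext1 y
  exact (hasFDerivAt_pot J A hd x y).fderiv

theorem contDiff_dpot (J : V →L[ℝ] V) (A : ℝ) {d : ℝ} (hd : 0 < d) (x : V) :
    ContDiff ℝ ∞ (dpot J A d x) := by
  rw [← fderiv_pot J A hd x]
  exact (contDiff_pot J A hd x).fderiv_right (m := ∞) (by simp)

theorem contDiffOn_alphaForm (J : V →L[ℝ] V) (A : ℝ) {d : ℝ} (hd : 0 < d) (x : V) {ρ : V → V}
    {Jt : V → V →L[ℝ] V} {U : Set V} (hρ : ContDiffOn ℝ ∞ ρ U) (hJt : ContDiffOn ℝ ∞ Jt U) :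
    ContDiffOn ℝ ∞ (alphaForm (dpot J A d x) ρ Jt) U := by
  unfold alphaForm
  have h1 : ContDiffOn ℝ ∞ (fun y => dpot J A d x (ρ y)) U := (contDiff_dpot J A hd x).comp_contDiffOn hρ
  exact (h1.clm_comp hJt).neg

end Pool.Agent.W_MP_d8b8b7_gt_h12
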